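import Pool.Agent.helper7.AL.SpecD

/-!
# LZO: the zero-one law for the box property and cosets of subgroups of the positive rationals
-/

set_option autoImplicit false

namespace Pool.Agent.LD

open Finset Pool.Agent.helper85.FC Pool.Agent.AT

/-- Representatives of the cosets which are positive integers. -/
theorem LZO_rep (H : Subgroup ℚˣ) (ω : ℕ) (h0 : 0 < ω) (hi : H.relIndex (Units.posSubgroup ℚ) = ω) :
    ∃ μ : Fin ω → ℕ, (∀ p, 0 < μ p) ∧
      ∀ p q, p ≠ q → ∀ z : ℚˣ, (z : ℚ) = (μ q : ℚ) / μ p → z ∉ H := by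
  classical
  have hc : Nat.card (Units.posSubgroup ℚ ⧸ H.subgroupOf (Units.posSubgroup ℚ)) = ω := hi
  have hfin : Finite (Units.posSubgroup ℚ ⧸ H.subgroupOf (Units.posSubgroup ℚ)) := by
    refine Nat.finite_of_card_ne_zero ?_
    rw [hc]
    exact h0.ne'
  let e := Finite.equivFinOfCardEq hc
  let r : Fin ω → Units.posSubgroup ℚ := fun p => (e.symm p).out
  have hr : ∀ p, ((r p : Units.posSubgroup ℚ) : Units.posSubgroup ℚ ⧸ H.subgroupOf (Units.posSubgroup ℚ)) =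
      e.symm p := fun p => QuotientGroup.out_eq' _
  have hpos : ∀ p, 0 < (((r p : Units.posSubgroup ℚ) : ℚˣ) : ℚ) := fun p => (r p).2
  let N : ℕ := ∏ p, (((r p : Units.posSubgroup ℚ) : ℚˣ) : ℚ).den
  have hN : 0 < N := Finset.prod_pos fun p _ => Rat.den_pos _
  have hex : ∀ p, ∃ n : ℕ, (n : ℚ) = (((r p : Units.posSubgroup ℚ) : ℚˣ) : ℚ) * N := by
    intro p
    obtain ⟨t, ht⟩ : (((r p : Units.posSubgroup ℚ) : ℚˣ) : ℚ).den ∣ N :=
      Finset.dvd_prod_of_mem _ (Finset.mem_univ p)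
    have h1 : (((r p : Units.posSubgroup ℚ) : ℚˣ) : ℚ) * N =
        ((((r p : Units.posSubgroup ℚ) : ℚˣ) : ℚ).num * t : ℤ) := by
      rw [ht]
      push_cast
      rw [← mul_assoc, Rat.mul_den_eq_num]
    have h2 : 0 ≤ (((r p : Units.posSubgroup ℚ) : ℚˣ) : ℚ).num * (t : ℤ) :=
      mul_nonneg (Rat.num_nonneg.2 (hpos p).le) (Int.natCast_nonneg t)
    obtain ⟨n, hn⟩ := Int.eq_ofNat_of_zero_le h2
    refine ⟨n, ?_⟩
    rw [h1, hn]
    push_cast
    rfl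
  choose μ hμ using hex
  have hNQ : (0 : ℚ) < N := by exact_mod_cast hN
  refine ⟨μ, fun p => ?_, fun p q hpq z hz hzH => ?_⟩
  · have h1 : (0 : ℚ) < μ p := by
      rw [hμ p]
      exact mul_pos (hpos p) hNQ
    exact_mod_cast h1
  · apply hpq
    have h1 : z = ((r p : Units.posSubgroup ℚ) : ℚˣ)⁻¹ * ((r q : Units.posSubgroup ℚ) : ℚˣ) := by
      apply Units.ext
      rw [hz, hμ p, hμ q, Units.val_mul, Units.val_inv_eq_inv_val]
      have h2 := (hpos p).ne'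
      have h3 := hNQ.ne'
      field_simp
    have h4 : (r p)⁻¹ * r q ∈ H.subgroupOf (Units.posSubgroup ℚ) := by
      rw [Subgroup.mem_subgroupOf]
      rw [h1] at hzH
      exact hzH
    have h5 : ((r p : Units.posSubgroup ℚ) : Units.posSubgroup ℚ ⧸ H.subgroupOf (Units.posSubgroup ℚ)) =
        (r q : Units.posSubgroup ℚ) := QuotientGroup.eq.2 h4
    rw [hr, hr] at h5
    exact e.symm.injective h5

theorem LZO : LZO_stmt := by
  classical
  intro hLDD H ω _ hω hi hA k hk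
  have h0 : 0 < ω := by omega
  obtain ⟨μ, hμ0, hμ⟩ := LZO_rep H ω h0 hi
  obtain ⟨K, hK1, hK⟩ := hLDD k ω hk h0
  refine ⟨K, hK1, fun s hs hsH => ?_⟩
  rcases hK (th ω) s hs with h | h
  · exact h
  exfalso
  obtain ⟨I, i, δ, hδ, hI, hX⟩ := h μ hμ0
  have hωR : (0 : ℝ) < ω := by exact_mod_cast h0
  have h1 : (1 : ℝ) < #I := by
    rw [th] at hI
    have h2 : (0 : ℝ) < (ω : ℝ) * (1 / 4 + 1 / 500000) := by positivity
    by_contra h3
    rw [not_lt] at h3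
    have h4 := mul_le_mul_of_nonneg_left h3 h2.le
    rw [mul_one] at h4
    exact absurd hI (not_lt.2 h4)
  have h2 : 1 < #I := by exact_mod_cast h1
  obtain ⟨p, hp, q, hq, hpq⟩ := Finset.one_lt_card.1 h2
  have ha : 0 < μ q * s (i q) := Nat.mul_pos (hμ0 q) (hs _)
  have hb : 0 < μ p * s (i p) := Nat.mul_pos (hμ0 p) (hs _)
  have haQ : ((μ q * s (i q) : ℕ) : ℚ) ≠ 0 := by exact_mod_cast ha.ne'
  have hbQ : ((μ p * s (i p) : ℕ) : ℚ) ≠ 0 := by exact_mod_cast hb.ne'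
  obtain ⟨y, hyH, hy⟩ := hsH (i q) (i p)
  have hx := hA (Units.mk0 _ (div_ne_zero haQ hbQ)) (μ q * s (i q)) (μ p * s (i p)) ha hb rfl
    ⟨δ, hδ, fun X₀ => by
      obtain ⟨X, hX0, hX1⟩ := hX X₀
      refine ⟨X, hX0, (hX1 p hp q hq hpq).trans (le_of_eq ?_)⟩
      rw [← Set.ncard_coe_finset, Finset.coe_filter]⟩
  refine hμ p q hpq (Units.mk0 _ (div_ne_zero haQ hbQ) * y⁻¹) ?_ (H.mul_mem hx (H.inv_mem hyH))
  rw [Units.val_mul, Units.val_inv_eq_inv_val, Units.val_mk0, hy]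
  have h3 : (s (i q) : ℚ) ≠ 0 := by exact_mod_cast (hs (i q)).ne'
  have h4 : (s (i p) : ℚ) ≠ 0 := by exact_mod_cast (hs (i p)).ne'
  have h5 : (μ q : ℚ) ≠ 0 := by exact_mod_cast (hμ0 q).ne'
  have h6 : (μ p : ℚ) ≠ 0 := by exact_mod_cast (hμ0 p).ne'
  push_cast
  field_simp

end Pool.Agent.LD
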